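import Pool.Agent.H723R3.Beur.Stmts

set_option autoImplicit false

namespace Beur

open scoped BoundedContinuousFunction Cardinal

universe u

/-- constant function one -/
private noncomputable def one1 (G : Type u) [Group G] [TopologicalSpace G]
    [DiscreteTopology G] : G →ᵇ ℝ := mkB (fun _ => (1 : ℝ)) 1 (by intro x; simp)

theorem taskA2 : TaskA2 := by
  classical
  intro G _ _ _ _ K x Ψ _hx hxu hΨ Q hQ F hF
  have hinf : ℵ₀ ≤ #G := Cardinal.aleph0_le_mk G
  set o : G →ᵇ ℝ := one1 G with ho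
  have ho1 : ∀ g, o g = 1 := fun g => rfl
  -- monotonicity
  have hmono : ∀ A B : G →ᵇ ℝ, (∀ g, A g ≤ B g) → Ψ A ≤ Ψ B := by
    intro A B h
    have := hΨ (B - A) (fun g => by
      rw [BoundedContinuousFunction.coe_sub, Pi.sub_apply]; linarith [h g])
    rw [map_sub] at this
    linarith
  -- the measure of a set
  let μ : Set G → ℝ := fun R => Ψ (ind R o)
  have hμle : ∀ R, μ R ≤ Ψ o := by
    intro R
    apply hmono
    intro g
    rw [ind_apply, ho1]
    split_ifs <;> norm_num
  have hμadd : ∀ R R' : Set G, Disjoint R R' → μ (R ∪ R') = μ R + μ R' := by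
    intro R R' hd
    show Ψ (ind (R ∪ R') o) = Ψ (ind R o) + Ψ (ind R' o)
    rw [← map_add]
    congr 1
    ext g
    rw [BoundedContinuousFunction.coe_add, Pi.add_apply, ind_apply, ind_apply, ind_apply, ho1]
    by_cases h1 : g ∈ R
    · have h2 : g ∉ R' := Set.disjoint_left.1 hd h1
      simp [h1, h2]
    · by_cases h2 : g ∈ R'
      · simp [h1, h2]
      · simp [h1, h2]
  set P : ℝ → Prop := fun y => ∃ R : Set G, #R < #G ∧ y = μ R with hP
  have hne : {y | P y}.Nonempty := ⟨μ ∅, ∅, by
    rw [Cardinal.mk_eq_zero]; exact lt_of_lt_of_le Cardinal.aleph0_pos hinf, rfl⟩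
  have hbdd : BddAbove {y | P y} := ⟨Ψ o, by
    rintro y ⟨R, -, rfl⟩; exact hμle R⟩
  set s := sSup {y | P y} with hs
  -- bound for act
  have hact : ∀ g, |act K Ψ F g| ≤ ‖F‖ * μ {h | g * h ∈ Q} := by
    intro g
    rw [act_apply]
    have hb : ∀ h, |L K g F h| ≤ (‖F‖ • ind {h | g * h ∈ Q} o) h := by
      intro h
      show |L K g F h| ≤ ‖F‖ • (ind {h | g * h ∈ Q} o h)
      rw [ind_apply, ho1]
      by_cases hh : g * h ∈ Q
      · rw [if_pos (by exact hh)]
        simpa using L_bd K g F h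
      · rw [if_neg (by exact hh), L_apply, hF _ hh]
        simp
    have h1 := hmono _ _ (fun h => (abs_le.1 (hb h)).2)
    have h2 := hmono (-(L K g F)) (‖F‖ • ind {h | g * h ∈ Q} o) (fun h => by
      rw [BoundedContinuousFunction.coe_neg, Pi.neg_apply]
      linarith [(abs_le.1 (hb h)).1])
    rw [map_smul, smul_eq_mul] at h1 h2
    rw [map_neg] at h2
    exact abs_le.2 ⟨by linarith, h1⟩
  have key : ∀ ε : ℝ, 0 < ε → |box K x Ψ F| ≤ ‖x‖ * (‖F‖ * ε) := by
    intro ε hε
    obtain ⟨y, ⟨R, hR, rfl⟩, hy⟩ := exists_lt_of_lt_csSup hne (show s - ε < s by linarith)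
    let B : Set G := {g | ε ≤ μ {h | g * h ∈ Q}}
    have hB : #B < #G := by
      have hsub : B ⊆ (fun z : G × G => z.1 * z.2⁻¹) '' (Q ×ˢ R) := by
        intro g hg
        by_contra hcon
        have hdisj : Disjoint R {h | g * h ∈ Q} := by
          rw [Set.disjoint_left]
          intro r hr hrQ
          apply hcon
          exact ⟨(g * r, r), ⟨hrQ, hr⟩, by simp⟩
        have hcard : #{h | g * h ∈ Q} < #G := by
          refine lt_of_le_of_lt ?_ hQ
          refine Cardinal.mk_le_of_injective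
            (f := fun h : {h | g * h ∈ Q} => (⟨g * h.1, h.2⟩ : Q)) ?_
          intro a b hab
          have := congrArg Subtype.val hab
          simp only [mul_right_inj] at this
          exact Subtype.ext this
        have h1 : #(R ∪ {h | g * h ∈ Q} : Set G) < #G :=
          lt_of_le_of_lt (Cardinal.mk_union_le _ _) (Cardinal.add_lt_of_lt hinf hR hcard)
        have h2 : μ (R ∪ {h | g * h ∈ Q}) ≤ s := le_csSup hbdd ⟨_, h1, rfl⟩
        rw [hμadd _ _ hdisj] at h2
        have h3 : ε ≤ μ {h | g * h ∈ Q} := hg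
        linarith
      refine lt_of_le_of_lt (Cardinal.mk_le_mk_of_subset hsub) ?_
      refine lt_of_le_of_lt Cardinal.mk_image_le ?_
      rw [Cardinal.mk_congr (Equiv.Set.prod Q R), Cardinal.mk_prod, Cardinal.lift_id,
        Cardinal.lift_id]
      exact Cardinal.mul_lt_of_lt hinf hQ hR
    have hsplit : box K x Ψ F = x (ind B (act K Ψ F)) + x (ind Bᶜ (act K Ψ F)) := by
      rw [box_apply, ← map_add]
      congr 1
      ext g
      rw [BoundedContinuousFunction.coe_add, Pi.add_apply, ind_apply, ind_apply]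
      by_cases h1 : g ∈ B
      · simp [h1]
      · simp [h1]
    have hz : x (ind B (act K Ψ F)) = 0 := by
      refine hxu B hB _ ?_
      intro g hg
      rw [ind_apply, if_neg hg]
    rw [hsplit, hz, zero_add]
    refine (x.le_opNorm _).trans (mul_le_mul_of_nonneg_left ?_ (norm_nonneg _))
    refine (BoundedContinuousFunction.norm_le (by positivity)).2 ?_
    intro g
    rw [ind_apply]
    split_ifs with h1
    · have h2 : ¬ (ε ≤ μ {h | g * h ∈ Q}) := h1
      rw [Real.norm_eq_abs]
      refine (hact g).trans (mul_le_mul_of_nonneg_left ?_ (norm_nonneg _))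
      exact (not_le.1 h2).le
    · rw [norm_zero]; positivity
  have h0 : |box K x Ψ F| ≤ 0 := by
    by_contra hcon
    push Not at hcon
    have hc : 0 < ‖x‖ * ‖F‖ + 1 := by positivity
    have := key (|box K x Ψ F| / (2 * (‖x‖ * ‖F‖ + 1))) (by positivity)
    have h2 : ‖x‖ * (‖F‖ * (|box K x Ψ F| / (2 * (‖x‖ * ‖F‖ + 1)))) =
        |box K x Ψ F| * ((‖x‖ * ‖F‖) / (2 * (‖x‖ * ‖F‖ + 1))) := by ring
    rw [h2] at this
    have h3 : (‖x‖ * ‖F‖) / (2 * (‖x‖ * ‖F‖ + 1)) < 1 := by
      rw [div_lt_one (by positivity)]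
      nlinarith [norm_nonneg x, norm_nonneg F, mul_nonneg (norm_nonneg x) (norm_nonneg F)]
    nlinarith
  exact abs_eq_zero.1 (le_antisymm h0 (abs_nonneg _))

end Beur
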